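import Pool.Agent.H200P.Stm

set_option autoImplicit false

namespace Pool.Agent.Q211.PK

open Finset Pool.Agent.TH176.Nag Pool.Agent.TH603.Sur Pool.Agent.TH2.NU Pool.Agent.TH641.UM
open Pool.Agent.H200P

theorem sum_ht_nonneg {G : ℝ} (hG : 0 < G) : ∀ B : List (ℕ × ℕ), 0 ≤ (B.map (ht G)).sum
  | [] => by simp
  | p :: B => by
    have ih := sum_ht_nonneg hG B
    have h1 : 0 ≤ ht G p := by
      unfold ht
      have h2 : (0 : ℝ) ≤ max (p.1 : ℝ) (p.2 : ℝ) := le_max_of_le_left (Nat.cast_nonneg _)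
      linarith
    rw [List.map_cons, List.sum_cons]
    linarith

theorem sq0_le {G w : ℝ} (hG : 0 < G) : ∀ B : List (ℕ × ℕ),
    (∀ p ∈ B, (p.1 : ℝ) ≤ w ∧ (p.2 : ℝ) ≤ w) → sq0 B ≤ 2 * w * (B.map (ht G)).sum
  | [] => by intro _; simp [sq0]
  | p :: B => by
    intro h
    have ih := sq0_le hG B fun q hq => h q (List.mem_cons_of_mem _ hq)
    obtain ⟨h1, h2⟩ := h p List.mem_cons_self
    have e1 : sq0 (p :: B) = ((p.1 : ℝ) ^ 2 + (p.2 : ℝ) ^ 2) + sq0 B := by
      unfold sq0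
      rw [List.map_cons, List.sum_cons]
    have p1 : (0 : ℝ) ≤ (p.1 : ℝ) := Nat.cast_nonneg _
    have p2 : (0 : ℝ) ≤ (p.2 : ℝ) := Nat.cast_nonneg _
    have m1 : (p.1 : ℝ) ≤ max (p.1 : ℝ) (p.2 : ℝ) := le_max_left _ _
    have m2 : (p.2 : ℝ) ≤ max (p.1 : ℝ) (p.2 : ℝ) := le_max_right _ _
    have q1 : (p.1 : ℝ) ≤ ht G p := by
      unfold ht
      linarith
    have q2 : (p.2 : ℝ) ≤ ht G p := by
      unfold ht
      linarith
    rw [e1, List.map_cons, List.sum_cons]
    have r1 : (p.1 : ℝ) ^ 2 ≤ w * ht G p := by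
      rw [sq]
      exact mul_le_mul h1 q1 p1 (p1.trans h1)
    have r2 : (p.2 : ℝ) ^ 2 ≤ w * ht G p := by
      rw [sq]
      exact mul_le_mul h2 q2 p2 (p2.trans h2)
    have e2 : 2 * w * (ht G p + (B.map (ht G)).sum) =
        w * ht G p + w * ht G p + 2 * w * (B.map (ht G)).sum := by ring
    rw [e2]
    linarith

/-- **Job PK-FITT.** -/
theorem fitT : S_FitT := by
  intro G hG L
  induction L with
  | nil =>
    intro D D' h
    change 2 * G ≤ D at h
    refine ⟨fun h1 => ?_, ?_, ?_, h⟩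
    · change 2 * G ≤ D'
      linarith
    · simp only [List.length_nil, Nat.cast_zero, mul_zero]
      linarith
    · have e1 : sqT0 [] = 0 := by simp [sqT0]
      rw [e1]
      positivity
  | cons x L ih =>
    obtain ⟨W, B⟩ := x
    intro D D' h
    obtain ⟨h1, h2, h3, h4⟩ := h
    obtain ⟨-, i2, i3, i4⟩ := ih (D - (W + G)) (D - (W + G)) h4
    have hs := sum_ht_nonneg hG B
    refine ⟨fun h5 => ⟨h1, h2, by linarith, ((ih (D - (W + G)) (D' - (W + G)) h4).1 (by linarith))⟩,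
      ?_, ?_, by linarith⟩
    · simp only [List.length_cons, Nat.cast_add, Nat.cast_one]
      linarith
    · have e1 : sqT0 ((W, B) :: L) = sq0 B + sqT0 L := by
        unfold sqT0
        rw [List.map_cons, List.sum_cons]
      obtain ⟨w, hw⟩ : ∃ w, w = W + G := ⟨_, rfl⟩
      rw [← hw] at i3 h3
      have hw0 : 0 ≤ w := by rw [hw]; linarith
      have h6 := sq0_le (w := w) hG B fun p hp => by
        obtain ⟨a1, a2⟩ := h2 p hp
        rw [hw]
        constructor <;> linarith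
      rw [e1]
      have h7 : w * (B.map (ht G)).sum ≤ w * (D - w) := mul_le_mul_of_nonneg_left (by linarith) hw0
      nlinarith

end Pool.Agent.Q211.PK
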