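import Pool.Agent.H200P.Stm2
import Pool.Agent.Q111.WR.Num

set_option autoImplicit false

/-! # Project PK, job NUM -/

namespace Pool.Agent.Q211.PK

open Finset Pool.Agent.H200W Pool.Agent.H200P Pool.Agent.TH2.NU Pool.Agent.Y205.FW Pool.Agent.Y205.MD
open Pool.Agent.Q111.WR

/-- **Job PK-NUM.** -/
theorem numK : S_NumK := by
  intro hleaf h G η d m1 μ K V N R hμ hh hη hη1 h32 hd hK hK1 hK2 hV hR hbig a g0 g1 hL
  have hμ' : (1 : ℝ) ≤ μ := by exact_mod_cast hμ
  have hh512 : 512 ≤ h := by rw [hh]; linarith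
  have hh0 : 0 < h := by linarith
  rcases V.eq_empty_or_nonempty with rfl | hne
  · -- no classes
    have hR0 : R.length = 0 := by
      by_contra hne
      have h1 : (1 : ℝ) ≤ R.length := by exact_mod_cast Nat.one_le_iff_ne_zero.mpr hne
      simp only [Finset.card_empty, Nat.cast_zero, add_zero, Finset.sum_empty] at hbig
      have : 0 < 257 * h ^ 2 * (R.length : ℝ) := by positivity
      linarith
    have hR1 : R = [] := List.length_eq_zero_iff.mp hR0
    subst hR1
    have h0 : ∀ N a : ℕ → ℕ, lf ∅ N a [] = 0 := by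
      intro N a
      unfold lf
      simp
    have hE : E0 ∅ N a [] = 0 := by
      unfold E0
      simp
    have key := hleaf (h := h) (G := G) (η := η) (d := d) (m1 := m1) K ∅ N a [] (by linarith) hη hη1
      h32 hd hK hK1 hK2 (by simp) (by simp) (by simp)
    rw [h0, add_zero, hE, condM_zero] at key
    rw [h0, h0, add_zero, Finset.sum_empty, add_zero]
    rcases key with k1 | k1 | ⟨k1, k2⟩
    · rw [k1]
      exact Nat.zero_le _
    · omega
    · have k3 : (crkM (HX 0 0 0 d) K : ℝ) ≤ 0 := by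
        have e1 : (2 * ((0 : ℕ) : ℝ) + 0) / (32 * h) = 0 := by simp
        rw [e1] at k2
        linarith
      have k4 : crkM (HX 0 0 0 d) K = 0 := by exact_mod_cast le_antisymm k3 (Nat.cast_nonneg _)
      rw [k4]
      exact Nat.zero_le _
  -- real numbers
  have hlo : ∀ v ∈ V, 16 * (v : ℝ) ≤ a v := by
    intro v hv
    have := (hL v hv).lo
    have h2 : 16 * v ≤ a v := by simpa using this
    exact_mod_cast h2
  have hhi : ∀ v ∈ V, (a v : ℝ) + 1 ≤ 16 * (v + 1) := by
    intro v hv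
    have := (hL v hv).hi
    have h2 : a v + 1 ≤ 16 * (v + 1) := by simpa using this
    exact_mod_cast h2
  have hv1 : ∀ v ∈ V, (1 : ℝ) ≤ v := fun v hv => by exact_mod_cast (hV v hv).1
  have hvμ : ∀ v ∈ V, (v : ℝ) ≤ μ := fun v hv => by exact_mod_cast (hV v hv).2.1
  have hN1 : ∀ v ∈ V, (1 : ℝ) ≤ N v := fun v hv => by exact_mod_cast (hV v hv).2.2.1
  have hah : ∀ v ∈ V, 16 * ((a v : ℝ) + 1) ≤ h := by
    intro v hv
    have := hhi v hv
    have := hvμ v hv
    rw [hh]; linarith
  have hRl : ∀ x ∈ R, 16 * ((x.2 : ℝ) + 1) ≤ h := by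
    intro x hx
    have : (x.2 : ℝ) ≤ μ := by exact_mod_cast (hR x hx).2.2.1
    rw [hh]; linarith
  have hbig' : 257 * h ^ 2 * ((R.length : ℝ) + V.card) ≤ ∑ v ∈ V, (N v : ℝ) * (a v : ℝ) ^ 2 := by
    refine hbig.trans (Finset.sum_le_sum fun v hv => ?_)
    have e1 := hlo v hv
    have e2 := hv1 v hv
    have e3 := hN1 v hv
    have e4 : (16 * (v : ℝ)) ^ 2 ≤ (a v : ℝ) ^ 2 := by
      apply pow_le_pow_left₀ (by positivity) e1
    have e5 : (256 * N v : ℝ) * (v : ℝ) ^ 2 = N v * (16 * (v : ℝ)) ^ 2 := by ring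
    rw [e5]
    exact mul_le_mul_of_nonneg_left e4 (by positivity)
  have key := hleaf (h := h) (G := G) (η := η) (d := d) (m1 := m1) K V N a R (by linarith) hη hη1
    h32 hd hK hK1 hK2 ?_ ?_ hbig'
  rotate_left
  · intro v hv
    refine ⟨(hV v hv).2.2.1, ?_, hah v hv, ?_⟩
    · have e1 := hlo v hv
      have e2 := hv1 v hv
      have : (16 : ℝ) ≤ a v := by linarith
      exact_mod_cast this
    · refine (hV v hv).2.2.2.trans ?_
      exact mul_le_mul_of_nonneg_left (hlo v hv) (by positivity)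
  · intro x hx
    exact ⟨(hR x hx).1, (hR x hx).2.1, hRl x hx, (hR x hx).2.2.2⟩
  rw [condM_add K] at key
  rw [condM_add K]
  -- the account of the conditions
  set cK := TH2.NU.condM K with hcK
  set cL := TH2.NU.condM (lf V N a R) with hcL
  set cW := TH2.NU.condM (lf V (fun v => 256 * N v) (fun v => v) R) with hcW
  set G0 := ∑ v ∈ V, g0 v with hG0
  set G1 := ∑ v ∈ V, g1 v with hG1
  set X := (HX 0 0 0 d).card with hX
  set c := crkM (HX 0 0 0 d) (K + lf V N a R) with hc
  have hcd : cL + G0 = cW + G1 := by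
    rw [hcL, hcW, condM_lf, condM_lf, hG0, hG1]
    have : ∑ v ∈ V, N v * (a v + 1).choose 2 + ∑ v ∈ V, g0 v =
        ∑ v ∈ V, 256 * N v * (v + 1).choose 2 + ∑ v ∈ V, g1 v := by
      rw [← Finset.sum_add_distrib, ← Finset.sum_add_distrib]
      refine Finset.sum_congr rfl fun v hv => ?_
      have := (hL v hv).cd
      simpa using this
    omega
  rcases key with k1 | k1 | ⟨k1, k2⟩
  · rw [k1]; exact Nat.zero_le _
  · omega
  -- the third case
  set W : ℝ := ∑ v ∈ V, 256 * (N v : ℝ) * v with hW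
  set P : ℝ := ∑ v ∈ V, (N v : ℝ) * ((a v : ℝ) + 1) with hP
  set Q : ℝ := (R.map fun x => (x.1 : ℝ) * ((x.2 : ℝ) + 1)).sum with hQ
  have hE0 : E0 V N a R = 3 / 2 * P + Q := rfl
  have hP0 : 0 ≤ P := Finset.sum_nonneg fun v _ => by positivity
  have hQ0 : 0 ≤ Q := List.sum_nonneg (by
    intro y hy
    obtain ⟨x, _, rfl⟩ := List.mem_map.mp hy
    positivity)
  have hPW : 8 * P ≤ W := by
    rw [hP, hW, Finset.mul_sum]
    refine Finset.sum_le_sum fun v hv => ?_
    have e1 := hhi v hv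
    have e2 := hv1 v hv
    have e3 := hN1 v hv
    nlinarith
  have hgain : 15 * W ≤ 32 * ((G0 : ℝ) + G1) := by
    have e1 : ∀ v ∈ V, 15 * (256 * (N v : ℝ) * v) ≤ 32 * ((g0 v : ℝ) + g1 v) := by
      intro v hv
      have e2 := (hL v hv).gain
      have e3 : ((N v * v * 256 : ℕ) : ℝ) ≤ ((2 * (g0 v + g1 v) + N v * v * 16 : ℕ) : ℝ) := by
        exact_mod_cast (by simpa using e2)
      push_cast at e3
      nlinarith
    have e4 := Finset.sum_le_sum e1
    rw [← Finset.mul_sum, ← Finset.mul_sum, Finset.sum_add_distrib] at e4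
    rw [hG0, hG1]
    push_cast
    exact e4
  set T : ℝ := (R.length : ℝ) + V.card with hT
  have hVc : (1 : ℝ) ≤ V.card := by exact_mod_cast hne.card_pos
  have hRc : (0 : ℝ) ≤ R.length := by positivity
  have hWbig : 257 * 256 * h * T ≤ W := by
    -- `μ W ≥ ∑ 256 N v ^ 2 ≥ 257 h ^ 2 T`, and `h ≥ 256 μ`
    have e1 : ∑ v ∈ V, (256 * N v : ℝ) * (v : ℝ) ^ 2 ≤ μ * W := by
      rw [hW, Finset.mul_sum]
      refine Finset.sum_le_sum fun v hv => ?_
      have e2 := hvμ v hv
      have e3 := hv1 v hv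
      have e4 : (v : ℝ) ^ 2 ≤ μ * v := by nlinarith
      calc (256 * N v : ℝ) * (v : ℝ) ^ 2 ≤ (256 * N v : ℝ) * (μ * v) :=
            mul_le_mul_of_nonneg_left e4 (by positivity)
        _ = _ := by ring
    have e5 : 257 * h ^ 2 * T ≤ μ * W := hbig.trans e1
    have e6 : 256 * (μ : ℝ) ≤ h := by rw [hh]; linarith
    have hT0 : 0 ≤ T := by positivity
    have e7 : 256 * (μ : ℝ) * (257 * h * T) ≤ h * (257 * h * T) :=
      mul_le_mul_of_nonneg_right e6 (by positivity)
    have e8 : (μ : ℝ) * (257 * 256 * h * T) ≤ μ * W := by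
      calc (μ : ℝ) * (257 * 256 * h * T) = 256 * (μ : ℝ) * (257 * h * T) := by ring
        _ ≤ h * (257 * h * T) := e7
        _ = 257 * h ^ 2 * T := by ring
        _ ≤ μ * W := e5
    exact le_of_mul_le_mul_left e8 (by linarith)
  have hQW : 257 * Q ≤ W := by
    have e1 : Q ≤ 256 * h * R.length := by
      rw [hQ, ← list_const]
      refine list_sum_le R _ _ fun x hx => ?_
      have := (hR x hx).2.2.2
      exact this
    have e2 : 257 * 256 * h * R.length ≤ 257 * 256 * h * T := by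
      apply mul_le_mul_of_nonneg_left _ (by positivity)
      rw [hT]; linarith
    nlinarith
  have hW0 : 0 < W := by
    have e1 : 0 < 257 * 256 * h * T := by
      have hT0 : 0 < T := by rw [hT]; linarith
      positivity
    linarith
  have hcLreal : 2 * (cL : ℝ) ≤ h / 16 * (P + Q) := by
    rw [hcL, condM_lf, Nat.cast_add, list_cast, Nat.cast_sum, mul_add, mul_add]
    refine add_le_add ?_ ?_
    · rw [hP, Finset.mul_sum, Finset.mul_sum]
      refine Finset.sum_le_sum fun v hv => ?_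
      rw [Nat.cast_mul, choose_real]
      have e1 := hah v hv
      have e3 := hN1 v hv
      have e4 : (a v : ℝ) ≤ h / 16 := by linarith
      have e5 : 0 ≤ (N v : ℝ) * ((a v : ℝ) + 1) := by positivity
      nlinarith
    · rw [hQ, ← list_mul, ← list_mul]
      refine list_sum_le R _ _ fun x hx => ?_
      rw [Nat.cast_mul, choose_real]
      have e1 := hRl x hx
      have e4 : (x.2 : ℝ) ≤ h / 16 := by linarith
      have e5 : 0 ≤ (x.1 : ℝ) * ((x.2 : ℝ) + 1) := by positivity
      nlinarith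
  rw [hE0] at k1 k2
  have hfrac : (2 * (cL : ℝ) + (3 / 2 * P + Q)) / (32 * h) ≤ (P + Q) / 400 := by
    rw [div_le_div_iff₀ (by positivity) (by norm_num)]
    have e1 : 512 * (P + Q) ≤ h * (P + Q) := mul_le_mul_of_nonneg_right hh512 (by linarith)
    nlinarith
  have hE' : 3 / 2 * P + Q + (P + Q) / 400 ≤ W / 5 := by
    linarith
  have k2' : 2 * (c : ℝ) ≤ W / 5 := by linarith
  have hcd' : (cL : ℝ) + G0 = cW + G1 := by exact_mod_cast hcd
  push_cast at k1
  by_cases hG : 2 * (c : ℝ) ≤ 2 * G0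
  · have : c ≤ G0 := by
      have : (c : ℝ) ≤ G0 := by linarith
      exact_mod_cast this
    omega
  · push Not at hG
    -- `2 G0 < W / 5`
    have e1 : 2 * (G0 : ℝ) < W / 5 := by linarith
    have e3 : c + (cK + cW) < X + G0 := by
      exact_mod_cast (by linarith : (c : ℝ) + ((cK : ℝ) + cW) < X + G0)
    omega

end Pool.Agent.Q211.PK
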