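import Pool.Agent.H200P.Stm

set_option autoImplicit false

namespace Pool.Agent.Q211.PK

open Finset Pool.Agent.TH176.Nag Pool.Agent.TH603.Sur Pool.Agent.TH2.NU Pool.Agent.TH641.UM
open Pool.Agent.H200P

theorem ms_one (M : ℕ) : ms (fun _ : Fin 1 => M) = {M} := by rw [ms_fin, one_smul]

theorem emp_base (M : ℕ) : Emp (fun _ : Fin 1 => M) {p : ℤ × ℤ | 0 ≤ p.1 ∧ 0 ≤ p.2 ∧ p.1 + p.2 < M} := by
  refine (Emp_rows (fun _ : Fin 1 => M) 0).mono ?_
  rintro ⟨x, y⟩ ⟨h1, h2, h3⟩
  simp only at h1 h2 h3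
  refine ⟨h2, h1, ?_⟩
  simp only [univ_unique, sum_const, card_singleton, one_smul]
  omega

theorem sur_base (M : ℕ) : Sur (fun _ : Fin 1 => M) {p : ℤ × ℤ | 0 ≤ p.1 ∧ 0 ≤ p.2 ∧ p.1 + p.2 < M} := by
  refine Sur_rows (fun _ : Fin 1 => M) 0 ?_
  intro k j hj
  simp only [univ_unique, sum_const, card_singleton, one_smul] at hj
  refine ⟨?_, ?_, ?_⟩
  · simp only
    omega
  · simp only
    omega
  · simp only
    omega

/-- **Job PK-TIPC.** -/
theorem tipC : S_TipC := by
  intro M A B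
  refine ⟨?_, ?_, ?_, ?_⟩
  · refine (SurM_iff (ms_one M) _).2 ((sur_base M).comap 1 0 0 1 (-1) (-1) (by norm_num) ?_)
    rintro ⟨x, y⟩ ⟨h1, h2, h3⟩
    simp only at h1 h2 h3
    refine ⟨(x + 1, y + 1), ⟨?_, ?_, ?_⟩, ?_⟩
    · simp only
      omega
    · simp only
      omega
    · simp only
      omega
    · ext
      · simp only
        omega
      · simp only
        omega
  · refine (SurM_iff (ms_one M) _).2 ((sur_base M).comap (-1) 0 0 (-1) A B (by norm_num) ?_)
    rintro ⟨x, y⟩ ⟨h1, h2, h3⟩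
    simp only at h1 h2 h3
    refine ⟨(A - x, B - y), ⟨?_, ?_, ?_⟩, ?_⟩
    · simp only
      omega
    · simp only
      omega
    · simp only
      omega
    · ext
      · simp only
        omega
      · simp only
        omega
  · exact (EmpM_iff (ms_one M) _).2 (emp_base M)
  · refine (EmpM_iff (ms_one M) _).2 ((emp_base M).comap (-1) 0 0 (-1) A B (by norm_num) ?_)
    rintro ⟨x, y⟩ ⟨h1, h2, h3⟩
    simp only at h1 h2 h3
    refine ⟨?_, ?_, ?_⟩
    · simp only
      omega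
    · simp only
      omega
    · simp only
      omega

end Pool.Agent.Q211.PK
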