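import Pool.Agent.H200P.Stm

set_option autoImplicit false

namespace Pool.Agent.Q211.PK

open Finset Pool.Agent.TH176.Nag Pool.Agent.TH603.Sur Pool.Agent.TH2.NU Pool.Agent.TH641.UM
open Pool.Agent.H200P

/-- **Job PK-ZERO.** Multiplicity zero is no condition. -/
theorem zero : S_Zero := by
  intro M S
  have hms : ms (Sum.elim (fun i : Fin M.toList.length => M.toList.get i) (fun _ : Fin 1 => 0)) =
      M + {0} := by
    rw [ms_sum, ms_fin, ms_toList, one_smul]
  have key : ∀ T : Set (ℤ × ℤ),
      Emp (Sum.elim (fun i : Fin M.toList.length => M.toList.get i) (fun _ : Fin 1 => 0)) T →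
      Emp (fun i : Fin M.toList.length => M.toList.get i) T := by
    rintro T ⟨K, _, _, x, y, hx, hy, hf⟩
    refine ⟨K, inferInstance, inferInstance, fun i => x (Sum.inl i), fun i => y (Sum.inl i),
      fun i => hx _, fun i => hy _, fun f hS hL => hf f hS ?_⟩
    rintro (i | i)
    · exact hL i
    · exact LM_of_mono fun a b hab => absurd hab (Nat.not_lt_zero _)
  constructor
  · intro h
    obtain ⟨T, h1, h2, h3⟩ := (SurM_iff hms S).1 h
    refine ⟨T, h1, ?_, key _ h3⟩
    rw [h2]
    unfold TH603.Sur.cond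
    rw [Fintype.sum_sum_type]
    simp
  · intro h
    exact key _ ((EmpM_iff hms S).1 h)

end Pool.Agent.Q211.PK
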